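import Pool.Agent.H30.AW.Targets
import Pool.Agent.H64.AV.LOC

/-!
# MP_70ba79_ag, board `aw_modules`, module LO2: local estimates
-/

set_option autoImplicit false

namespace Pool.Agent.H49.AW.LO2

open MvPolynomial SC Pool.Agent.H27.LV Pool.Agent.H30.AV Pool.Agent.H30.AW Pool.Agent.H64.AV

section

variable {k K : Type} [Field k] [Field K] [Algebra k K] {n : ℕ}

theorem D_ell (D : Derivation k K K) (a : Fin (n + 1) → k) (z : Fin (n + 1) → K) :
    D (ell a z) = ∑ j, algebraMap k K (a j) * D (z j) := by
  unfold ell
  rw [map_sum]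
  refine Finset.sum_congr rfl fun j _ => ?_
  rw [D.leibniz, D.map_algebraMap, smul_eq_mul, smul_eq_mul, mul_zero, add_zero]

theorem bil_eq (D : Derivation k K K) (a b : Fin (n + 1) → k) (y : Fin n → K) :
    bil (evk K b) (lift2 y D) (evk K a) =
      ell b (xx y) * D (ell a (xx y)) - ell a (xx y) * D (ell b (xx y)) := by
  rw [D_ell, D_ell]
  unfold ell bil lift2 wed evk
  rw [Finset.sum_mul_sum, Finset.sum_mul_sum, Finset.sum_comm (s := Finset.univ)
    (f := fun i j => algebraMap k K (a i) * xx y i * (algebraMap k K (b j) * D (xx y j))),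
    ← Finset.sum_sub_distrib]
  refine Finset.sum_congr rfl fun s _ => ?_
  rw [← Finset.sum_sub_distrib]
  refine Finset.sum_congr rfl fun t _ => ?_
  ring

end

theorem pf_LO2 (hDOR : T_DOR) : T_LO2 := by
  intro k K _ _ _ _ _ _ htr n m μ a b S y x D hD hS hx hm hmμ hxm v
  obtain ⟨-, ⟨hd1, hd2⟩, -⟩ := hDOR k K htr D hD v
  have hell : ell a (xx y) ≠ 0 := by
    rw [← hxm]
    exact pow_ne_zero _ hx
  have hE : v ∉ S → poleOrder v y = 0 := fun hv => pole_zero v y (hS v hv)
  have hlam : 0 ≤ v.ord (ell a (xx y)) + poleOrder v y := by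
    have := (ell_ge v a y).resolve_left hell
    linarith
  have hkap1 : v ∉ S → kap D S y v = ordD v D := fun hv => by
    unfold kap
    rw [if_neg hv, sub_zero]
  have hkap2 : v ∈ S → kap D S y v = ordD v D - (2 * poleOrder v y + 1) := fun hv => by
    unfold kap
    rw [if_pos hv]
  have hDy : ∀ j, ge v (kap D S y v + poleOrder v y) (D (y j)) := by
    intro j
    by_cases hv : v ∈ S
    · rw [hkap2 hv]
      by_cases h0 : y j = 0
      · left
        rw [h0, map_zero]
      · refine (hd2 _ h0).mono ?_
        have h1 : (-(v.ord (y j))).toNat ≤ poleOrder v y :=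
          Finset.le_sup (f := fun i => (-(v.ord (y i))).toNat) (Finset.mem_univ j)
        omega
    · rw [hkap1 hv, hE hv]
      simpa using hd1 _ (hS v hv j)
  have hDz : ∀ s, ge v (kap D S y v + poleOrder v y) (D (xx y s)) := by
    intro s
    refine Fin.cases ?_ (fun i => ?_) s
    · left
      change D 1 = 0
      exact D.map_one_eq_zero
    · exact hDy i
  have hDb : ge v (kap D S y v + poleOrder v y) (D (ell b (xx y))) := by
    rw [D_ell]
    apply ge_sum
    intro j _
    have h := (ge_const v (b j)).mul (hDz j)
    rwa [zero_add] at h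
  refine ⟨hlam, hE, fun p => ?_, ?_⟩
  · have h1 := ((xx_ge v y p.1).mul (hDz p.2)).mono
      (by linarith : kap D S y v ≤ -(poleOrder v y : ℤ) + (kap D S y v + poleOrder v y))
    have h2 := ((xx_ge v y p.2).mul (hDz p.1)).mono
      (by linarith : kap D S y v ≤ -(poleOrder v y : ℤ) + (kap D S y v + poleOrder v y))
    exact h1.sub h2
  · rw [bil_eq]
    have hm' : (2 : ℤ) ≤ m := by exact_mod_cast hm
    have hfin : ∀ N : ℤ, (m : ℤ) * kap D S y v +
        (m - 1) * (v.ord (ell a (xx y)) + poleOrder v y) ≤ m * N →
        ge v N (ell b (xx y) * D (ell a (xx y)) - ell a (xx y) * D (ell b (xx y))) →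
        (ell b (xx y) * D (ell a (xx y)) - ell a (xx y) * D (ell b (xx y)) = 0 ∨
          (m : ℤ) * kap D S y v + (m - 1) * (v.ord (ell a (xx y)) + poleOrder v y) ≤
          m * v.ord (ell b (xx y) * D (ell a (xx y)) - ell a (xx y) * D (ell b (xx y)))) := by
      intro N hN hg
      rcases hg with h | h
      · exact Or.inl h
      · right
        refine hN.trans ?_
        exact mul_le_mul_of_nonneg_left h (by linarith)
    by_cases hv : v ∈ S
    · refine hfin (kap D S y v + (v.ord (ell a (xx y)) + poleOrder v y)) ?_ ?_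
      · nlinarith
      · have h1 := ((ell_ge v b y).mul (hd2 _ hell)).mono
          (by rw [hkap2 hv]; linarith : kap D S y v + (v.ord (ell a (xx y)) + poleOrder v y) ≤
            -(poleOrder v y : ℤ) + (v.ord (ell a (xx y)) - 1 + ordD v D))
        have h2 := ((ge_of_ord v (x := ell a (xx y))).mul hDb).mono
          (by linarith : kap D S y v + (v.ord (ell a (xx y)) + poleOrder v y) ≤
            v.ord (ell a (xx y)) + (kap D S y v + poleOrder v y))
        exact h1.sub h2
    · have hE0 := hE hv
      have hbz := ell_ge v b y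
      rw [hE0] at hlam hDb hbz hfin ⊢
      rw [hkap1 hv] at hDb hfin ⊢
      rw [Nat.cast_zero, add_zero] at hlam hDb
      rw [Nat.cast_zero, neg_zero] at hbz
      have hxo : v.ord (ell a (xx y)) = μ * v.ord x := by
        rw [← hxm, v.ord_pow]
      rcases eq_or_lt_of_le hlam with h4 | h4
      · refine hfin (ordD v D) ?_ ?_
        · rw [← h4]
          push_cast
          linarith
        · have h1 := hbz.mul (hd1 _ h4.le)
          have h2 := (ge_of_ord v (x := ell a (xx y))).mul hDb
          rw [← h4, zero_add] at h2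
          rw [zero_add] at h1
          exact h1.sub h2
      · have hx1 : 1 ≤ v.ord x := by
          by_contra hcon
          push Not at hcon
          have : (μ : ℤ) * v.ord x ≤ 0 :=
            mul_nonpos_of_nonneg_of_nonpos (by positivity) (by omega)
          omega
        have hμ : (m : ℤ) ≤ μ := by exact_mod_cast hmμ
        have h7 : (m : ℤ) ≤ v.ord (ell a (xx y)) := by
          rw [hxo]
          nlinarith
        refine hfin (v.ord (ell a (xx y)) - 1 + ordD v D) ?_ ?_
        · push_cast
          nlinarith
        · have h1 := hbz.mul (hd2 _ hell)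
          rw [zero_add] at h1
          have h2 := ((ge_of_ord v (x := ell a (xx y))).mul hDb).mono
            (by linarith : v.ord (ell a (xx y)) - 1 + ordD v D ≤
              v.ord (ell a (xx y)) + ordD v D)
          exact h1.sub h2

end Pool.Agent.H49.AW.LO2
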